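import Mathlib

/-!
# Representations of symmetric groups killed by long antisymmetrizers
-/

namespace Pool.Agent.H204R3.SP

open Equiv

section

variable {κ : Type*} [Fintype κ] [DecidableEq κ] {Ω : Type*} [Field Ω]
  {X : Type*} [AddCommGroup X] [Module Ω X] (a : Representation Ω (Perm κ) X)

/-- The permutations that move only elements of `A`. -/
def permsOf (A : Finset κ) : Finset (Perm κ) := Finset.univ.filter (fun σ => ∀ k, k ∉ A → σ k = k)

theorem mem_permsOf {A : Finset κ} {σ : Perm κ} : σ ∈ permsOf A ↔ ∀ k, k ∉ A → σ k = k := by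
  simp only [permsOf, Finset.mem_filter, Finset.mem_univ, true_and]

/-- The antisymmetrizer of the subset `A`. -/
def anti (A : Finset κ) (F : X) : X := ∑ σ ∈ permsOf A, ((Perm.sign σ : ℤ) : Ω) • a σ F

theorem anti_swap (A : Finset κ) (F : X) {p q : κ} (hp : p ∈ A) (hq : q ∈ A) (hpq : p ≠ q) :
    a (swap p q) (anti a A F) = -anti a A F := by
  unfold anti
  rw [map_sum, ← Finset.sum_neg_distrib]
  refine Finset.sum_nbij' (fun σ => swap p q * σ) (fun σ => swap p q * σ) ?_ ?_ ?_ ?_ ?_
  · intro σ hσ
    rw [mem_permsOf] at hσ ⊢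
    intro k hk
    rw [Perm.mul_apply, hσ k hk, swap_apply_of_ne_of_ne]
    · rintro rfl; exact hk hp
    · rintro rfl; exact hk hq
  · intro σ hσ
    rw [mem_permsOf] at hσ ⊢
    intro k hk
    rw [Perm.mul_apply, hσ k hk, swap_apply_of_ne_of_ne]
    · rintro rfl; exact hk hp
    · rintro rfl; exact hk hq
  · intro σ _
    rw [← mul_assoc, swap_mul_self, one_mul]
  · intro σ _
    rw [← mul_assoc, swap_mul_self, one_mul]
  · intro σ _
    rw [map_smul, map_mul, map_mul, Perm.sign_swap hpq]
    simp only [Units.val_neg, Int.cast_neg, neg_one_mul, neg_smul, neg_neg, Module.End.mul_apply]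

theorem anti_insert (A : Finset κ) (F : X) {k : κ} (hk : k ∉ A) :
    anti a (insert k A) F = anti a A F - ∑ p ∈ A, a (swap p k) (anti a A F) := by
  have h1 : anti a (insert k A) F = ∑ x ∈ (insert k A) ×ˢ permsOf A,
      ((Perm.sign (swap x.1 k * x.2) : ℤ) : Ω) • a (swap x.1 k * x.2) F := by
    unfold anti
    refine Finset.sum_nbij' (fun σ => (σ k, swap (σ k) k * σ)) (fun x => swap x.1 k * x.2)
      ?_ ?_ ?_ ?_ ?_
    · intro σ hσ
      rw [mem_permsOf] at hσ
      rw [Finset.mem_product, mem_permsOf]
      refine ⟨?_, ?_⟩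
      · by_contra h
        change σ k ∉ _ at h
        have h2 := hσ _ h
        have h3 : σ k = k := σ.injective h2
        rw [h3] at h
        exact h (Finset.mem_insert_self _ _)
      · intro l hl
        change swap (σ k) k (σ l) = l
        by_cases hlk : l = k
        · subst hlk
          rw [swap_apply_left]
        · have h2 : σ l = l := hσ l (by
            rw [Finset.mem_insert, not_or]
            exact ⟨hlk, hl⟩)
          rw [h2, swap_apply_of_ne_of_ne _ hlk]
          intro h3
          exact hlk (σ.injective (h2.trans h3))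
    · rintro ⟨p, τ⟩ hx
      rw [Finset.mem_product, mem_permsOf] at hx
      rw [mem_permsOf]
      intro l hl
      rw [Finset.mem_insert, not_or] at hl
      rw [Perm.mul_apply, hx.2 l hl.2, swap_apply_of_ne_of_ne _ hl.1]
      rintro rfl
      have h3 : l ∈ insert k A := hx.1
      rw [Finset.mem_insert] at h3
      rcases h3 with h3 | h3
      · exact hl.1 h3
      · exact hl.2 h3
    · intro σ _
      change swap (σ k) k * (swap (σ k) k * σ) = σ
      rw [← mul_assoc, swap_mul_self, one_mul]
    · rintro ⟨p, τ⟩ hx
      rw [Finset.mem_product, mem_permsOf] at hx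
      have h3 : τ k = k := hx.2 k hk
      have h4 : (swap p k * τ) k = p := by
        rw [Perm.mul_apply, h3, swap_apply_right]
      change ((swap p k * τ) k, swap ((swap p k * τ) k) k * (swap p k * τ)) = (p, τ)
      rw [h4, ← mul_assoc, swap_mul_self, one_mul]
    · intro σ _
      change _ = ((Perm.sign (swap (σ k) k * (swap (σ k) k * σ)) : ℤ) : Ω) •
        a (swap (σ k) k * (swap (σ k) k * σ)) F
      rw [← mul_assoc, swap_mul_self, one_mul]
  rw [h1, Finset.sum_product, Finset.sum_insert hk]
  have h2 : ∑ τ ∈ permsOf A, ((Perm.sign (swap k k * τ) : ℤ) : Ω) • a (swap k k * τ) F =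
      anti a A F := by
    unfold anti
    refine Finset.sum_congr rfl fun τ _ => ?_
    rw [swap_self]
    rfl
  rw [h2, sub_eq_add_neg, ← Finset.sum_neg_distrib]
  congr 1
  refine Finset.sum_congr rfl fun p hp => ?_
  have hpk : p ≠ k := by
    rintro rfl
    exact hk hp
  unfold anti
  rw [map_sum, ← Finset.sum_neg_distrib]
  refine Finset.sum_congr rfl fun τ _ => ?_
  rw [map_smul, map_mul, map_mul, Perm.sign_swap hpk]
  simp only [Units.val_neg, Int.cast_neg, neg_one_mul, neg_smul, Module.End.mul_apply]

variable [CharZero Ω]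

/-- If every Jucys-Murphy type sum `∑ k ≠ p, (p k)` acts as `- (N + 1)` modulo `M`, and the
antisymmetrizers of all subsets with `N + 1` elements vanish modulo `M`, everything is in `M`. -/
theorem le_of_anti (I M : Submodule Ω X) (hI : ∀ (σ : Perm κ), ∀ F ∈ I, a σ F ∈ I)
    (N : ℕ) (h1 : ∀ F ∈ I, ∀ p : κ,
      ∑ k ∈ Finset.univ.erase p, a (swap p k) F + ((N : Ω) + 1) • F ∈ M)
    (h2 : ∀ A : Finset κ, A.card = N + 1 → ∀ F ∈ I, anti a A F ∈ M)
    (p₀ : κ) : I ≤ M := by
  have hanti : ∀ A : Finset κ, ∀ F ∈ I, anti a A F ∈ I := by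
    intro A F hF
    exact Submodule.sum_mem _ fun σ _ => Submodule.smul_mem _ _ (hI σ F hF)
  have key : ∀ (j : ℕ) (A : Finset κ), A.Nonempty → A.card + j = N + 1 →
      ∀ F ∈ I, anti a A F ∈ M := by
    intro j
    induction j with
    | zero => exact fun A _ hA F hF => h2 A (by simpa using hA) F hF
    | succ j ih =>
      intro A hne hA F hF
      set y := anti a A F with hy
      have hyI : y ∈ I := hanti A F hF
      -- the sum over `A` of the relations
      have h3 : ∑ p ∈ A, (∑ k ∈ Finset.univ.erase p, a (swap p k) y + ((N : Ω) + 1) • y) ∈ M :=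
        Submodule.sum_mem _ fun p _ => h1 y hyI p
      have h4 : ∀ p ∈ A, ∑ k ∈ Finset.univ.erase p, a (swap p k) y =
          -((A.card : Ω) - 1) • y + ∑ k ∈ Aᶜ, a (swap p k) y := by
        intro p hp
        have h5 : Finset.univ.erase p = (A.erase p) ∪ Aᶜ := by
          ext k
          simp only [Finset.mem_erase, Finset.mem_univ, and_true, Finset.mem_union,
            Finset.mem_compl]
          constructor
          · intro hk
            by_cases hkA : k ∈ A
            · exact Or.inl ⟨hk, hkA⟩
            · exact Or.inr hkA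
          · rintro (⟨hk, -⟩ | hk)
            · exact hk
            · rintro rfl
              exact hk hp
        have h6 : Disjoint (A.erase p) Aᶜ := by
          rw [Finset.disjoint_left]
          intro k hk hk'
          rw [Finset.mem_compl] at hk'
          exact hk' (Finset.mem_of_mem_erase hk)
        rw [h5, Finset.sum_union h6]
        congr 1
        have h7 : ∀ k ∈ A.erase p, a (swap p k) y = -y := by
          intro k hk
          exact anti_swap a A F hp (Finset.mem_of_mem_erase hk) (Finset.ne_of_mem_erase hk).symm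
        rw [Finset.sum_congr rfl h7, Finset.sum_const, Finset.card_erase_of_mem hp]
        have h8 : 1 ≤ A.card := Finset.card_pos.2 hne
        rw [← Nat.cast_smul_eq_nsmul Ω, Nat.cast_sub h8, Nat.cast_one]
        simp only [smul_neg, neg_smul]
      have h5 : ∀ k ∈ Aᶜ, ∑ p ∈ A, a (swap p k) y = y - anti a (insert k A) F := by
        intro k hk
        rw [Finset.mem_compl] at hk
        rw [anti_insert a A F hk]
        abel
      have h6 : ∑ p ∈ A, (∑ k ∈ Finset.univ.erase p, a (swap p k) y + ((N : Ω) + 1) • y) =
          ((A.card : Ω) * ((N : Ω) + 2 - A.card) + (Aᶜ.card : Ω)) • y -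
            ∑ k ∈ Aᶜ, anti a (insert k A) F := by
        rw [Finset.sum_add_distrib, Finset.sum_congr rfl h4, Finset.sum_add_distrib,
          Finset.sum_comm (s := A) (t := Aᶜ), Finset.sum_congr rfl h5, Finset.sum_sub_distrib]
        simp only [Finset.sum_const, ← Nat.cast_smul_eq_nsmul Ω]
        module
      rw [h6] at h3
      have h7 : ∑ k ∈ Aᶜ, anti a (insert k A) F ∈ M := by
        refine Submodule.sum_mem _ fun k hk => ?_
        rw [Finset.mem_compl] at hk
        refine ih (insert k A) (Finset.insert_nonempty _ _) ?_ F hF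
        rw [Finset.card_insert_of_notMem hk]
        omega
      have h8 := Submodule.add_mem _ h3 h7
      rw [sub_add_cancel] at h8
      have h9 : ((A.card : Ω) * ((N : Ω) + 2 - A.card) + (Aᶜ.card : Ω)) ≠ 0 := by
        have h10 : 1 ≤ A.card := Finset.card_pos.2 hne
        have h11 : A.card ≤ N + 2 := by omega
        have h12 : ((A.card : Ω) * ((N : Ω) + 2 - A.card) + (Aᶜ.card : Ω)) =
            ((A.card * (N + 2 - A.card) + Aᶜ.card : ℕ) : Ω) := by
          rw [Nat.cast_add, Nat.cast_mul, Nat.cast_sub h11]
          push_cast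
          ring
        rw [h12, Nat.cast_ne_zero]
        have h13 : 1 ≤ N + 2 - A.card := by omega
        have h14 : 1 ≤ A.card * (N + 2 - A.card) := Nat.mul_pos h10 h13
        omega
      have h10 := Submodule.smul_mem _ (((A.card : Ω) * ((N : Ω) + 2 - A.card) + (Aᶜ.card : Ω)))⁻¹ h8
      rwa [smul_smul, inv_mul_cancel₀ h9, one_smul] at h10
  intro F hF
  have h3 := key N {p₀} (Finset.singleton_nonempty _) (by
    rw [Finset.card_singleton]
    omega) F hF
  have h4 : anti a {p₀} F = F := by
    unfold anti
    have h5 : permsOf ({p₀} : Finset κ) = {1} := by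
      ext σ
      rw [mem_permsOf, Finset.mem_singleton]
      constructor
      · intro h
        ext k
        rw [Perm.one_apply]
        by_cases hk : k = p₀
        · subst hk
          by_contra h6
          have h7 : σ (σ k) = σ k := h (σ k) (by
            rw [Finset.mem_singleton]
            exact h6)
          exact h6 (σ.injective h7)
        · exact h k (by
            rw [Finset.mem_singleton]
            exact hk)
      · rintro rfl k _
        rfl
    rw [h5, Finset.sum_singleton, Perm.sign_one, Units.val_one, Int.cast_one, one_smul, map_one]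
    rfl
  rwa [h4] at h3

end

end Pool.Agent.H204R3.SP
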