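import Mathlib
import Pool.Agent.H204R3.SP.Anti

/-!
# The first fundamental theorem for the symplectic group, in coordinates
-/

set_option linter.unusedSectionVars false

namespace Pool.Agent.H204R3.SP

open Equiv

noncomputable section

variable {R : Type*} [Fintype R] [DecidableEq R] {Ω : Type*} [Field Ω]
  (inv : R → R) (jj : R → Ω)

/-- The symplectic form on the basis vectors. -/
def JJ (x y : R) : Ω := if y = inv x then jj x else 0

variable (κ : Type*) [Fintype κ] [DecidableEq κ]

/-- The permutation action on coefficient functions. -/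
def pact : Representation Ω (Perm κ) ((κ → R) → Ω) where
  toFun σ :=
    { toFun := fun F I => F (fun k => I (σ k))
      map_add' := fun _ _ => rfl
      map_smul' := fun _ _ => rfl }
  map_one' := rfl
  map_mul' _ _ := rfl

theorem pact_apply (σ : Perm κ) (F : (κ → R) → Ω) (I : κ → R) :
    pact κ σ F I = F (fun k => I (σ k)) := rfl

/-- The coefficient functions of the forms killed by the symplectic Lie algebra. -/
def InvF : Submodule Ω ((κ → R) → Ω) where
  carrier := {F | ∀ (b c : R) (I : κ → R), ∑ k, (JJ inv jj b (I k) * F (Function.update I k c) +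
    JJ inv jj c (I k) * F (Function.update I k b)) = 0}
  zero_mem' := by
    intro b c I
    simp
  add_mem' := by
    intro F G hF hG b c I
    have h1 := hF b c I
    have h2 := hG b c I
    have h3 := congrArg₂ (fun x y : Ω => x + y) h1 h2
    simp only [add_zero] at h3
    rw [← h3, ← Finset.sum_add_distrib]
    refine Finset.sum_congr rfl fun k _ => ?_
    simp only [Pi.add_apply]
    ring
  smul_mem' := by
    intro a F hF b c I
    have h1 := hF b c I
    rw [← mul_zero a, ← h1, Finset.mul_sum]
    refine Finset.sum_congr rfl fun k _ => ?_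
    simp only [Pi.smul_apply, smul_eq_mul]
    ring

variable {κ}

/-- The product of the form over a perfect matching. -/
def matF {m : ℕ} (e : Fin m × Fin 2 ≃ κ) : (κ → R) → Ω :=
  fun I => ∏ s, JJ inv jj (I (e (s, 0))) (I (e (s, 1)))

variable (κ) in
/-- The span of the matchings. -/
def MatF (m : ℕ) : Submodule Ω ((κ → R) → Ω) :=
  Submodule.span Ω (Set.range (matF inv jj (κ := κ) (m := m)))

theorem update_comp (I : κ → R) (σ : Perm κ) (k : κ) (c : R) :
    (fun l => Function.update I (σ k) c (σ l)) = Function.update (fun l => I (σ l)) k c := by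
  funext l
  by_cases h : l = k
  · subst h
    rw [Function.update_self, Function.update_self]
  · rw [Function.update_of_ne h, Function.update_of_ne]
    intro h2
    exact h (σ.injective h2)

theorem InvF_stable (σ : Perm κ) (F : (κ → R) → Ω) (hF : F ∈ InvF inv jj κ) :
    pact κ σ F ∈ InvF inv jj κ := by
  intro b c I
  have h1 := hF b c (fun k => I (σ k))
  rw [← h1]
  refine (Fintype.sum_equiv σ _ _ fun k => ?_).symm
  rw [pact_apply, pact_apply, update_comp, update_comp]

variable {inv jj} (hinv : ∀ x, inv (inv x) = x) (hjj : ∀ x, jj (inv x) = -jj x)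
  (hj0 : ∀ x, jj x ≠ 0)

include hinv in
theorem JJ_inv_right (b x : R) : JJ inv jj b (inv x) = if x = b then jj b else 0 := by
  unfold JJ
  by_cases h : x = b
  · rw [if_pos h, if_pos (by rw [h])]
  · rw [if_neg h, if_neg]
    intro h2
    apply h
    rw [← hinv x, h2, hinv]

include hinv in
theorem JJ_right (b x : R) : JJ inv jj b x = if inv b = x then jj b else 0 := by
  unfold JJ
  by_cases h : x = inv b
  · rw [if_pos h, if_pos h.symm]
  · rw [if_neg h, if_neg (fun h2 => h h2.symm)]

include hinv hj0 in
theorem contraction (F : (κ → R) → Ω) (hF : F ∈ InvF inv jj κ) (p : κ) (I : κ → R) :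
    ∑ k ∈ Finset.univ.erase p, F (fun l => I (swap p k l)) +
      ((Fintype.card R : Ω) + 1) * F I + ∑ k ∈ Finset.univ.erase p, JJ inv jj (I p) (I k) *
        ∑ x, (jj x)⁻¹ * F (Function.update (Function.update I p (inv x)) k x) = 0 := by
  have h1 : ∑ x, (jj x)⁻¹ * ∑ k, (JJ inv jj x (Function.update I p (inv x) k) *
      F (Function.update (Function.update I p (inv x)) k (I p)) +
      JJ inv jj (I p) (Function.update I p (inv x) k) *
        F (Function.update (Function.update I p (inv x)) k x)) = 0 := by
    refine Finset.sum_eq_zero fun x _ => ?_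
    rw [hF x (I p) (Function.update I p (inv x)), mul_zero]
  have h2 : ∀ x, ∑ k, (JJ inv jj x (Function.update I p (inv x) k) *
      F (Function.update (Function.update I p (inv x)) k (I p)) +
      JJ inv jj (I p) (Function.update I p (inv x) k) *
        F (Function.update (Function.update I p (inv x)) k x)) =
      (jj x * F I + (if x = I p then jj (I p) else 0) * F (Function.update I p x)) +
      ∑ k ∈ Finset.univ.erase p, (JJ inv jj x (I k) *
        F (Function.update (Function.update I p (inv x)) k (I p)) +
        JJ inv jj (I p) (I k) * F (Function.update (Function.update I p (inv x)) k x)) := by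
    intro x
    rw [← Finset.add_sum_erase _ _ (Finset.mem_univ p)]
    congr 1
    · rw [Function.update_self, Function.update_idem, Function.update_idem,
        Function.update_eq_self, JJ_inv_right hinv, JJ_inv_right hinv, if_pos rfl]
    · refine Finset.sum_congr rfl fun k hk => ?_
      rw [Function.update_of_ne (Finset.ne_of_mem_erase hk)]
  rw [Finset.sum_congr rfl (fun x _ => by rw [h2 x, mul_add]), Finset.sum_add_distrib] at h1
  have h3 : ∑ x, (jj x)⁻¹ * (jj x * F I + (if x = I p then jj (I p) else 0) *
      F (Function.update I p x)) = ((Fintype.card R : Ω) + 1) * F I := by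
    have h4 : ∀ x, (jj x)⁻¹ * (jj x * F I + (if x = I p then jj (I p) else 0) *
        F (Function.update I p x)) = F I + (if x = I p then F I else 0) := by
      intro x
      by_cases h : x = I p
      · subst h
        rw [if_pos rfl, if_pos rfl, Function.update_eq_self]
        have := hj0 (I p)
        field_simp
      · rw [if_neg h, if_neg h, zero_mul, add_zero, add_zero, inv_mul_cancel_left₀ (hj0 x)]
    rw [Finset.sum_congr rfl (fun x _ => h4 x), Finset.sum_add_distrib, Finset.sum_const,
      Finset.sum_ite_eq' Finset.univ (I p), if_pos (Finset.mem_univ _), Finset.card_univ,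
      nsmul_eq_mul]
    ring
  have h5 : ∑ x, (jj x)⁻¹ * ∑ k ∈ Finset.univ.erase p, (JJ inv jj x (I k) *
        F (Function.update (Function.update I p (inv x)) k (I p)) +
        JJ inv jj (I p) (I k) * F (Function.update (Function.update I p (inv x)) k x)) =
      ∑ k ∈ Finset.univ.erase p, F (fun l => I (swap p k l)) +
      ∑ k ∈ Finset.univ.erase p, JJ inv jj (I p) (I k) *
        ∑ x, (jj x)⁻¹ * F (Function.update (Function.update I p (inv x)) k x) := by
    simp only [Finset.mul_sum]
    rw [Finset.sum_comm, ← Finset.sum_add_distrib]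
    refine Finset.sum_congr rfl fun k hk => ?_
    have hkp := Finset.ne_of_mem_erase hk
    simp only [mul_add, Finset.sum_add_distrib]
    congr 1
    · have h6 : ∀ x, (jj x)⁻¹ * (JJ inv jj x (I k) *
          F (Function.update (Function.update I p (inv x)) k (I p))) =
          if x = inv (I k) then F (Function.update (Function.update I p (I k)) k (I p)) else 0 := by
        intro x
        rw [JJ_right hinv]
        by_cases h : inv x = I k
        · rw [if_pos h, if_pos (by rw [← h, hinv]), h, inv_mul_cancel_left₀ (hj0 x)]
        · rw [if_neg h, if_neg (fun h2 => h (by rw [h2, hinv])), zero_mul, mul_zero]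
      rw [Finset.sum_congr rfl (fun x _ => h6 x), Finset.sum_ite_eq', if_pos (Finset.mem_univ _)]
      congr 1
      funext l
      by_cases hl : l = k
      · subst hl
        rw [Function.update_self, swap_apply_right]
      · rw [Function.update_of_ne hl]
        by_cases hl2 : l = p
        · subst hl2
          rw [Function.update_self, swap_apply_left]
        · rw [Function.update_of_ne hl2, swap_apply_of_ne_of_ne hl2 hl]
    · refine Finset.sum_congr rfl fun x _ => by ring
  rw [h3, h5] at h1
  rw [← h1]
  ring

/-- Fill in two values. -/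
def fill (p k : κ) (u w : R) (I : {l // l ≠ p ∧ l ≠ k} → R) : κ → R :=
  fun l => if h : l ≠ p ∧ l ≠ k then I ⟨l, h⟩ else if l = p then u else w

theorem fill_p (p k : κ) (u w : R) (I : {l // l ≠ p ∧ l ≠ k} → R) :
    fill p k u w I p = u := by simp [fill]

theorem fill_k {p k : κ} (hpk : p ≠ k) (u w : R) (I : {l // l ≠ p ∧ l ≠ k} → R) :
    fill p k u w I k = w := by simp [fill, hpk.symm]

theorem fill_l (p k : κ) (u w : R) (I : {l // l ≠ p ∧ l ≠ k} → R) (l : {l // l ≠ p ∧ l ≠ k}) :
    fill p k u w I l.1 = I l := by simp [fill, l.2]

theorem fill_update (p k : κ) (u w : R) (I : {l // l ≠ p ∧ l ≠ k} → R)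
    (l : {l // l ≠ p ∧ l ≠ k}) (c : R) :
    fill p k u w (Function.update I l c) = Function.update (fill p k u w I) l.1 c := by
  funext l'
  by_cases h : l' = l.1
  · subst h
    rw [Function.update_self, fill_l, Function.update_self]
  · rw [Function.update_of_ne h]
    unfold fill
    by_cases h2 : l' ≠ p ∧ l' ≠ k
    · rw [dif_pos h2, dif_pos h2, Function.update_of_ne]
      intro h3
      exact h (congrArg Subtype.val h3)
    · rw [dif_neg h2, dif_neg h2]

theorem fill_update_p {p k : κ} (hpk : p ≠ k) (u w c : R) (I : {l // l ≠ p ∧ l ≠ k} → R) :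
    Function.update (fill p k u w I) p c = fill p k c w I := by
  funext l
  by_cases h : l = p
  · subst h
    rw [Function.update_self, fill_p]
  · rw [Function.update_of_ne h]
    by_cases h2 : l = k
    · subst h2
      rw [fill_k hpk, fill_k hpk]
    · rw [fill_l p k u w I ⟨l, h, h2⟩, fill_l p k c w I ⟨l, h, h2⟩]

theorem fill_update_k {p k : κ} (hpk : p ≠ k) (u w c : R) (I : {l // l ≠ p ∧ l ≠ k} → R) :
    Function.update (fill p k u w I) k c = fill p k u c I := by
  funext l
  by_cases h : l = k
  · subst h
    rw [Function.update_self, fill_k hpk]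
  · rw [Function.update_of_ne h]
    by_cases h2 : l = p
    · subst h2
      rw [fill_p, fill_p]
    · rw [fill_l p k u w I ⟨l, h2, h⟩, fill_l p k u c I ⟨l, h2, h⟩]

theorem fill_restrict {p k : κ} (hpk : p ≠ k) (u w : R) (I : κ → R) :
    fill p k u w (fun l => I l.1) = Function.update (Function.update I p u) k w := by
  funext l
  by_cases h : l = k
  · subst h
    rw [Function.update_self, fill_k hpk]
  · rw [Function.update_of_ne h]
    by_cases h2 : l = p
    · subst h2
      rw [Function.update_self, fill_p]
    · rw [Function.update_of_ne h2, fill_l p k u w _ ⟨l, h2, h⟩]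

/-- The contraction of a form at the positions `p`, `k`. -/
def contr (inv : R → R) (jj : R → Ω) (p k : κ) (F : (κ → R) → Ω) :
    ({l // l ≠ p ∧ l ≠ k} → R) → Ω :=
  fun I => ∑ x, (jj x)⁻¹ * F (fill p k (inv x) x I)

theorem sum_split {p k : κ} (hpk : p ≠ k) (h : κ → Ω) :
    ∑ l, h l = h p + (h k + ∑ l : {l // l ≠ p ∧ l ≠ k}, h l.1) := by
  rw [← Finset.add_sum_erase _ _ (Finset.mem_univ p),
    ← Finset.add_sum_erase (Finset.univ.erase p) h (a := k) (by simp [hpk.symm])]
  congr 2
  rw [← Finset.sum_subtype ((Finset.univ.erase p).erase k) (p := fun l => l ≠ p ∧ l ≠ k)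
    (fun l => by simp [and_comm]) h]

include hinv hjj hj0 in
theorem contr_mem {p k : κ} (hpk : p ≠ k) (F : (κ → R) → Ω) (hF : F ∈ InvF inv jj κ) :
    contr inv jj p k F ∈ InvF inv jj {l // l ≠ p ∧ l ≠ k} := by
  intro b c I
  have h1 : ∀ x, ∑ l : {l // l ≠ p ∧ l ≠ k}, (JJ inv jj b (I l) *
      F (fill p k (inv x) x (Function.update I l c)) + JJ inv jj c (I l) *
      F (fill p k (inv x) x (Function.update I l b))) =
      -((if x = b then jj b else 0) * F (fill p k c x I) +
        (if x = c then jj c else 0) * F (fill p k b x I) +
        ((if x = inv b then jj b else 0) * F (fill p k (inv x) c I) +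
        (if x = inv c then jj c else 0) * F (fill p k (inv x) b I))) := by
    intro x
    have h2 := hF b c (fill p k (inv x) x I)
    rw [sum_split hpk, fill_p, fill_k hpk, fill_update_p hpk, fill_update_p hpk,
      fill_update_k hpk, fill_update_k hpk, JJ_inv_right hinv, JJ_inv_right hinv,
      JJ_right hinv b x, JJ_right hinv c x] at h2
    simp only [fill_l, ← fill_update] at h2
    have h3 : ∀ y : R, (if inv y = x then jj y else 0) = if x = inv y then jj y else 0 := by
      intro y
      by_cases h : inv y = x
      · rw [if_pos h, if_pos h.symm]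
      · rw [if_neg h, if_neg (fun h' => h h'.symm)]
    rw [h3, h3] at h2
    linear_combination h2
  have h4 : ∑ l : {l // l ≠ p ∧ l ≠ k}, (JJ inv jj b (I l) *
      contr inv jj p k F (Function.update I l c) + JJ inv jj c (I l) *
      contr inv jj p k F (Function.update I l b)) =
      ∑ x, (jj x)⁻¹ * ∑ l : {l // l ≠ p ∧ l ≠ k}, (JJ inv jj b (I l) *
      F (fill p k (inv x) x (Function.update I l c)) + JJ inv jj c (I l) *
      F (fill p k (inv x) x (Function.update I l b))) := by
    simp only [contr, Finset.mul_sum]
    rw [Finset.sum_comm, ← Finset.sum_comm]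
    rw [Finset.sum_comm]
    refine Finset.sum_congr rfl fun l _ => ?_
    rw [← Finset.sum_add_distrib]
    refine Finset.sum_congr rfl fun x _ => ?_
    ring
  rw [h4, Finset.sum_congr rfl (fun x _ => by rw [h1 x])]
  have h5 : ∀ x, (jj x)⁻¹ * -((if x = b then jj b else 0) * F (fill p k c x I) +
        (if x = c then jj c else 0) * F (fill p k b x I) +
        ((if x = inv b then jj b else 0) * F (fill p k (inv x) c I) +
        (if x = inv c then jj c else 0) * F (fill p k (inv x) b I))) =
      (if x = b then -F (fill p k c b I) else 0) + (if x = c then -F (fill p k b c I) else 0) +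
      ((if x = inv b then F (fill p k b c I) else 0) +
        (if x = inv c then F (fill p k c b I) else 0)) := by
    intro x
    have e1 : (jj x)⁻¹ * ((if x = b then jj b else 0) * F (fill p k c x I)) =
        if x = b then F (fill p k c b I) else 0 := by
      by_cases h : x = b
      · subst h
        rw [if_pos rfl, if_pos rfl, inv_mul_cancel_left₀ (hj0 x)]
      · rw [if_neg h, if_neg h, zero_mul, mul_zero]
    have e2 : (jj x)⁻¹ * ((if x = c then jj c else 0) * F (fill p k b x I)) =
        if x = c then F (fill p k b c I) else 0 := by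
      by_cases h : x = c
      · subst h
        rw [if_pos rfl, if_pos rfl, inv_mul_cancel_left₀ (hj0 x)]
      · rw [if_neg h, if_neg h, zero_mul, mul_zero]
    have e3 : (jj x)⁻¹ * ((if x = inv b then jj b else 0) * F (fill p k (inv x) c I)) =
        if x = inv b then -F (fill p k b c I) else 0 := by
      by_cases h : x = inv b
      · subst h
        rw [if_pos rfl, if_pos rfl, hinv, hjj]
        have := hj0 b
        field_simp
      · rw [if_neg h, if_neg h, zero_mul, mul_zero]
    have e4 : (jj x)⁻¹ * ((if x = inv c then jj c else 0) * F (fill p k (inv x) b I)) =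
        if x = inv c then -F (fill p k c b I) else 0 := by
      by_cases h : x = inv c
      · subst h
        rw [if_pos rfl, if_pos rfl, hinv, hjj]
        have := hj0 c
        field_simp
      · rw [if_neg h, if_neg h, zero_mul, mul_zero]
    rw [mul_neg, mul_add, mul_add, mul_add, e1, e2, e3, e4]
    split_ifs <;> ring
  rw [Finset.sum_congr rfl (fun x _ => h5 x)]
  simp only [Finset.sum_add_distrib, Finset.sum_ite_eq', Finset.mem_univ, if_true]
  ring

/-- Add a pair to a matching. -/
theorem exists_extend {p k : κ} (hpk : p ≠ k) {m : ℕ} (hm : Fintype.card κ = 2 * (m + 1))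
    (e : Fin m × Fin 2 ≃ {l // l ≠ p ∧ l ≠ k}) :
    ∃ e' : Fin (m + 1) × Fin 2 ≃ κ, e' (0, 0) = p ∧ e' (0, 1) = k ∧
      ∀ s ε, e' (Fin.succ s, ε) = (e (s, ε)).1 := by
  let g : Fin (m + 1) × Fin 2 → κ := fun x =>
    Fin.cases (if x.2 = 0 then p else k) (fun s => (e (s, x.2)).1) x.1
  have hsurj : Function.Surjective g := by
    intro l
    by_cases h1 : l = p
    · exact ⟨(0, 0), by simp [g, h1]⟩
    · by_cases h2 : l = k
      · exact ⟨(0, 1), by simp [g, h2]⟩
      · refine ⟨(Fin.succ (e.symm ⟨l, h1, h2⟩).1, (e.symm ⟨l, h1, h2⟩).2), ?_⟩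
        simp [g]
  have hbij : Function.Bijective g := by
    rw [Fintype.bijective_iff_surjective_and_card]
    refine ⟨hsurj, ?_⟩
    rw [hm, Fintype.card_prod, Fintype.card_fin, Fintype.card_fin, mul_comm]
  exact ⟨Equiv.ofBijective g hbij, by simp [g], by simp [g], fun s ε => by simp [g]⟩

theorem anti_eq_zero (A : Finset κ) (hA : Fintype.card R < A.card) [CharZero Ω]
    (F : (κ → R) → Ω) : anti (pact κ) A F = 0 := by
  funext I
  have h1 : ¬ Set.InjOn I A := by
    intro h
    have h2 := Finset.card_image_of_injOn h
    have h3 := Finset.card_le_univ (A.image I)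
    omega
  simp only [Set.InjOn, not_forall] at h1
  obtain ⟨p, hp, q, hq, hpq, hne⟩ := h1
  have h2 := congrFun (anti_swap (pact κ) A F hp hq hne) I
  rw [pact_apply, Pi.neg_apply] at h2
  have h3 : (fun l => I (swap p q l)) = I := by
    funext l
    by_cases h : l = p
    · subst h
      rw [swap_apply_left, hpq]
    · by_cases h' : l = q
      · subst h'
        rw [swap_apply_right, hpq]
      · rw [swap_apply_of_ne_of_ne h h']
  rw [h3] at h2
  have h4 : (2 : Ω) * anti (pact κ) A F I = 0 := by linear_combination h2
  exact (mul_eq_zero.1 h4).resolve_left two_ne_zero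

end

noncomputable section

universe u

variable {R : Type*} [Fintype R] [DecidableEq R] {Ω : Type*} [Field Ω] [CharZero Ω]
  {inv : R → R} {jj : R → Ω}

/-- **First fundamental theorem** for the symplectic group, in coordinates. -/
theorem fft (hinv : ∀ x, inv (inv x) = x) (hjj : ∀ x, jj (inv x) = -jj x) (hj0 : ∀ x, jj x ≠ 0)
    (m : ℕ) : ∀ (κ : Type u) [Fintype κ] [DecidableEq κ], Fintype.card κ = 2 * m →
      InvF inv jj κ ≤ MatF inv jj κ m := by
  induction m with
  | zero =>
    intro κ _ _ hκ F _
    have _ : IsEmpty κ := Fintype.card_eq_zero_iff.1 (by omega)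
    have h1 : F = F isEmptyElim • matF inv jj (Equiv.equivOfIsEmpty (Fin 0 × Fin 2) κ) := by
      funext I
      have h2 : I = isEmptyElim := Subsingleton.elim _ _
      rw [h2, Pi.smul_apply]
      simp [matF]
    rw [h1]
    exact Submodule.smul_mem _ _ (Submodule.subset_span ⟨_, rfl⟩)
  | succ m ih =>
    intro κ _ _ hκ
    obtain ⟨p₀⟩ : Nonempty κ := Fintype.card_pos_iff.1 (by omega)
    refine le_of_anti (pact κ) (InvF inv jj κ) (MatF inv jj κ (m + 1))
      (fun σ F hF => InvF_stable inv jj σ F hF) (Fintype.card R) ?_ ?_ p₀
    · intro F hF p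
      have h1 : ∑ k ∈ Finset.univ.erase p, pact κ (swap p k) F +
          ((Fintype.card R : Ω) + 1) • F = -∑ k ∈ Finset.univ.erase p,
            (fun I : κ → R => JJ inv jj (I p) (I k) *
              contr inv jj p k F (fun l => I l.1)) := by
        funext I
        have h2 := contraction hinv hj0 F hF p I
        rw [Pi.add_apply, Finset.sum_apply, Pi.smul_apply, Pi.neg_apply, Finset.sum_apply,
          smul_eq_mul, eq_neg_iff_add_eq_zero, ← h2]
        congr 1
        refine Finset.sum_congr rfl fun k hk => ?_
        have hkp := (Finset.ne_of_mem_erase hk).symm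
        simp only [contr]
        congr 1
        refine Finset.sum_congr rfl fun x _ => ?_
        rw [fill_restrict hkp]
      rw [h1]
      refine Submodule.neg_mem _ (Submodule.sum_mem _ fun k hk => ?_)
      have hkp := (Finset.ne_of_mem_erase hk).symm
      have hcard : Fintype.card {l // l ≠ p ∧ l ≠ k} = 2 * m := by
        have h3 : Fintype.card {l // l ≠ p ∧ l ≠ k} = ((Finset.univ.erase p).erase k).card := by
          rw [Fintype.card_subtype]
          congr 1
          ext l
          simp [and_comm]
        rw [h3, Finset.card_erase_of_mem (by simp [hkp.symm]), Finset.card_erase_of_mem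
          (Finset.mem_univ _), Finset.card_univ, hκ]
        omega
      have h3 := ih {l // l ≠ p ∧ l ≠ k} hcard (contr_mem hinv hjj hj0 hkp F hF)
      have h4 : ∀ C ∈ MatF inv jj {l // l ≠ p ∧ l ≠ k} m,
          (fun I : κ → R => JJ inv jj (I p) (I k) * C (fun l => I l.1)) ∈
            MatF inv jj κ (m + 1) := by
        intro C hC
        induction hC using Submodule.span_induction with
        | mem C hC =>
          obtain ⟨e, rfl⟩ := hC
          obtain ⟨e', he0, he1, he'⟩ := exists_extend hkp hκ e
          refine Submodule.subset_span ⟨e', ?_⟩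
          funext I
          simp only [matF]
          rw [Fin.prod_univ_succ, he0, he1]
          congr 1
          exact Finset.prod_congr rfl fun s _ => by rw [he', he']
        | zero =>
          simp only [Pi.zero_apply, mul_zero]
          exact Submodule.zero_mem _
        | add a b _ _ ha hb =>
          simp only [Pi.add_apply, mul_add]
          exact Submodule.add_mem _ ha hb
        | smul c a _ ha =>
          have h5 := Submodule.smul_mem _ c ha
          convert h5 using 1
          funext I
          simp only [Pi.smul_apply, smul_eq_mul]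
          ring
      exact h4 _ h3
    · intro A hA F _
      rw [anti_eq_zero A (by omega) F]
      exact Submodule.zero_mem _

end

end Pool.Agent.H204R3.SP
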