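import Mathlib
import Pool.Agent.H204R3.SP.Tate

/-!
# Descent of Tate forms from a larger field
-/

set_option linter.unusedSectionVars false

namespace Pool.Agent.H204R3.SP

open Module TensorProduct

noncomputable section

variable {k Ω : Type*} [Field k] [Field Ω] [Algebra k Ω] {V : Type*} [AddCommGroup V] [Module k V]

theorem span_descent_k {X : Type*} (S : Set (X → k)) (f : X → k)
    (hf : (fun x => algebraMap k Ω (f x)) ∈
      Submodule.span Ω {g : X → Ω | ∃ s ∈ S, g = fun x => algebraMap k Ω (s x)}) :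
    f ∈ Submodule.span k S := by
  have key : ∀ g ∈ Submodule.span Ω {g : X → Ω | ∃ s ∈ S, g = fun x => algebraMap k Ω (s x)},
      ∀ π : Ω →ₗ[k] k, (fun x => π (g x)) ∈ Submodule.span k S := by
    intro g hg
    induction hg using Submodule.span_induction with
    | mem g hg =>
      obtain ⟨s, hs, rfl⟩ := hg
      intro π
      have h1 : (fun x => π (algebraMap k Ω (s x))) = π 1 • s := by
        funext x
        rw [Algebra.algebraMap_eq_smul_one, map_smul, Pi.smul_apply, smul_eq_mul, smul_eq_mul,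
          mul_comm]
      rw [h1]
      exact Submodule.smul_mem _ _ (Submodule.subset_span hs)
    | zero =>
      intro π
      simp only [Pi.zero_apply, map_zero]
      exact Submodule.zero_mem _
    | add a b _ _ ha hb =>
      intro π
      simp only [Pi.add_apply, map_add]
      exact Submodule.add_mem _ (ha π) (hb π)
    | smul c a _ ha =>
      intro π
      exact ha (π.comp (LinearMap.mulLeft k c))
  obtain ⟨π, hπ⟩ := LinearMap.exists_leftInverse_of_injective
    ((Algebra.linearMap k Ω)) (LinearMap.ker_eq_bot.2 (algebraMap k Ω).injective)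
  have h1 := key _ hf π
  have h2 : (fun x => π (algebraMap k Ω (f x))) = f := by
    funext x
    have h3 := LinearMap.congr_fun hπ (f x)
    rw [LinearMap.comp_apply, Algebra.linearMap_apply, LinearMap.id_apply] at h3
    exact h3
  rwa [h2] at h1

variable {ν : Type*} [Fintype ν] [DecidableEq ν] (b : Basis ν k V)

/-- The base change of a multilinear form. -/
def bcm {κ : Type*} [Fintype κ] [DecidableEq κ] (φ : MultilinearMap k (fun _ : κ => V) k) :
    MultilinearMap Ω (fun _ : κ => Ω ⊗[k] V) Ω :=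
  ∑ I : κ → ν, (algebraMap k Ω (φ (fun l => b (I l)))) •
    (MultilinearMap.mkPiAlgebra Ω κ Ω).compLinearMap (fun l => (b.baseChange Ω).coord (I l))

theorem bcm_basis {κ : Type*} [Fintype κ] [DecidableEq κ]
    (φ : MultilinearMap k (fun _ : κ => V) k) (J : κ → ν) :
    bcm (Ω := Ω) b φ (fun l => b.baseChange Ω (J l)) = algebraMap k Ω (φ (fun l => b (J l))) := by
  unfold bcm
  rw [MultilinearMap.sum_apply]
  have h1 : ∀ I : κ → ν, ((algebraMap k Ω (φ (fun l => b (I l)))) •
      (MultilinearMap.mkPiAlgebra Ω κ Ω).compLinearMap (fun l => (b.baseChange Ω).coord (I l)))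
      (fun l => b.baseChange Ω (J l)) =
      algebraMap k Ω (φ (fun l => b (I l))) * (if I = J then 1 else 0) := by
    intro I
    rw [MultilinearMap.smul_apply, MultilinearMap.compLinearMap_apply,
      MultilinearMap.mkPiAlgebra_apply, smul_eq_mul]
    congr 1
    have h2 : ∀ l, ((b.baseChange Ω).coord (I l)) (b.baseChange Ω (J l)) =
        if I l = J l then 1 else 0 := by
      intro l
      rw [Basis.coord_apply, Basis.repr_self, Finsupp.single_apply]
      by_cases h : I l = J l
      · rw [if_pos h, if_pos h.symm]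
      · rw [if_neg h, if_neg (fun h' => h h'.symm)]
    rw [Finset.prod_congr rfl (fun l _ => h2 l)]
    by_cases h : I = J
    · rw [if_pos h, h]
      exact Finset.prod_eq_one fun l _ => if_pos rfl
    · rw [if_neg h]
      obtain ⟨l, hl⟩ := Function.ne_iff.1 h
      exact Finset.prod_eq_zero (Finset.mem_univ l) (if_neg hl)
  rw [Finset.sum_congr rfl (fun I _ => h1 I)]
  simp only [mul_ite, mul_one, mul_zero, Finset.sum_ite_eq', Finset.mem_univ, if_true]

theorem bcm_one {κ : Type*} [Fintype κ] [DecidableEq κ]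
    (φ : MultilinearMap k (fun _ : κ => V) k) (v : κ → V) :
    bcm (Ω := Ω) b φ (fun l => (1 : Ω) ⊗ₜ[k] v l) = algebraMap k Ω (φ v) := by
  let inc : V →ₗ[k] Ω ⊗[k] V := TensorProduct.mk k Ω V 1
  let A : MultilinearMap k (fun _ : κ => V) Ω :=
    ((bcm (Ω := Ω) b φ).restrictScalars k).compLinearMap (fun _ => inc)
  let B : MultilinearMap k (fun _ : κ => V) Ω := (Algebra.linearMap k Ω).compMultilinearMap φ
  have h : A = B := by
    refine Basis.ext_multilinear (fun _ => b) fun I => ?_
    have h1 := bcm_basis (Ω := Ω) b φ I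
    change (bcm (Ω := Ω) b φ) (fun l => (1 : Ω) ⊗ₜ[k] b (I l)) = algebraMap k Ω (φ (fun l => b (I l)))
    rw [← h1]
    congr 1
    funext l
    rw [Basis.baseChange_apply]
  exact congrArg (fun F : MultilinearMap k (fun _ : κ => V) Ω => F v) h

/-- The base change of a bilinear form. -/
def bcb (Ω : Type*) [Field Ω] [Algebra k Ω] (ω : V →ₗ[k] V →ₗ[k] k) :
    (Ω ⊗[k] V) →ₗ[Ω] (Ω ⊗[k] V) →ₗ[Ω] Ω :=
  LinearMap.BilinForm.baseChange Ω ω

theorem bcb_one (ω : V →ₗ[k] V →ₗ[k] k) (u v : V) :
    bcb Ω ω ((1 : Ω) ⊗ₜ[k] u) ((1 : Ω) ⊗ₜ[k] v) = algebraMap k Ω (ω u v) := by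
  unfold bcb
  rw [LinearMap.BilinForm.baseChange_tmul, mul_one, Algebra.algebraMap_eq_smul_one]

theorem bcb_tmul (ω : V →ₗ[k] V →ₗ[k] k) (a c : Ω) (u v : V) :
    bcb Ω ω (a ⊗ₜ[k] u) (c ⊗ₜ[k] v) = (ω u v) • (a * c) := rfl

variable {Γ : Type*} [Group Γ] (ρ : Representation k Γ V) (χ : Γ →* k)

/-- The base change of a representation. -/
def bcr (Ω : Type*) [Field Ω] [Algebra k Ω] : Representation Ω Γ (Ω ⊗[k] V) where
  toFun s := (ρ s).baseChange Ω
  map_one' := by
    rw [map_one]
    exact LinearMap.baseChange_id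
  map_mul' s t := by
    rw [map_mul]
    exact LinearMap.baseChange_comp _ _

theorem bcr_tmul (s : Γ) (a : Ω) (v : V) : bcr ρ Ω s (a ⊗ₜ[k] v) = a ⊗ₜ[k] ρ s v := rfl

/-- The base change of a character. -/
def bcc (Ω : Type*) [Field Ω] [Algebra k Ω] : Γ →* Ω :=
  (algebraMap k Ω : k →* Ω).comp χ

theorem bcc_apply (s : Γ) : bcc χ Ω s = algebraMap k Ω (χ s) := rfl

theorem bcb_inv (ω : V →ₗ[k] V →ₗ[k] k) (hωρ : ∀ s u v, ω (ρ s u) (ρ s v) = χ s * ω u v)
    (s : Γ) (u v : Ω ⊗[k] V) :
    bcb Ω ω (bcr ρ Ω s u) (bcr ρ Ω s v) = bcc χ Ω s * bcb Ω ω u v := by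
  induction u with
  | zero => simp only [map_zero, LinearMap.zero_apply, mul_zero]
  | add u u' hu hu' => simp only [map_add, LinearMap.add_apply, hu, hu', mul_add]
  | tmul a u =>
    induction v with
    | zero => simp only [map_zero, mul_zero]
    | add v v' hv hv' => simp only [map_add, hv, hv', mul_add]
    | tmul c v =>
      rw [bcr_tmul, bcr_tmul, bcb_tmul, bcb_tmul, hωρ, bcc_apply, mul_smul,
        Algebra.smul_def (χ s)]

theorem bcm_tate {m : ℕ} (φ : MultilinearMap k (fun _ : Fin m × Fin 2 => V) k)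
    (hφ : IsTate ρ χ m φ) : IsTate (bcr ρ Ω) (bcc χ Ω) m (bcm (Ω := Ω) b φ) := by
  obtain ⟨Δ, hΔ, h⟩ := hφ
  refine ⟨Δ, hΔ, fun s hs => ?_⟩
  have h1 : (bcm (Ω := Ω) b φ).compLinearMap (fun _ => bcr ρ Ω s) =
      (bcc χ Ω s ^ m) • bcm (Ω := Ω) b φ := by
    refine Basis.ext_multilinear (fun _ => b.baseChange Ω) fun I => ?_
    change (bcm (Ω := Ω) b φ) (fun l => bcr ρ Ω s (b.baseChange Ω (I l))) =
      bcc χ Ω s ^ m * (bcm (Ω := Ω) b φ) (fun l => b.baseChange Ω (I l))
    rw [bcm_basis]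
    have h2 : ∀ l, bcr ρ Ω s (b.baseChange Ω (I l)) = (1 : Ω) ⊗ₜ[k] ρ s (b (I l)) := by
      intro l
      rw [Basis.baseChange_apply, bcr_tmul]
    simp only [h2]
    rw [bcm_one, h s hs, map_mul, map_pow, bcc_apply]
  intro v
  exact congrArg (fun F : MultilinearMap Ω (fun _ : Fin m × Fin 2 => Ω ⊗[k] V) Ω => F v) h1

include b in
/-- Descent: if the Tate forms over the larger field are combinations of products of the symplectic
form, so are the Tate forms over the smaller field. -/
theorem tate_descent [CharZero k] [CharZero Ω] (ω : V →ₗ[k] V →ₗ[k] k) {m : ℕ}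
    (hall : ∀ φ : MultilinearMap Ω (fun _ : Fin m × Fin 2 => Ω ⊗[k] V) Ω,
      IsTate (bcr ρ Ω) (bcc χ Ω) m φ → φ ∈ Submodule.span Ω (Set.range (mm (bcb Ω ω) (m := m))))
    (φ : MultilinearMap k (fun _ : Fin m × Fin 2 => V) k) (hφ : IsTate ρ χ m φ) :
    φ ∈ Submodule.span k (Set.range (mm ω (m := m))) := by
  have h1 := hall _ (bcm_tate (Ω := Ω) b ρ χ φ hφ)
  let res : MultilinearMap Ω (fun _ : Fin m × Fin 2 => Ω ⊗[k] V) Ω →ₗ[Ω]
      ((Fin m × Fin 2 → V) → Ω) :=
    { toFun := fun F v => F (fun l => (1 : Ω) ⊗ₜ[k] v l)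
      map_add' := fun _ _ => rfl
      map_smul' := fun _ _ => rfl }
  have h2 : res (bcm (Ω := Ω) b φ) = fun v => algebraMap k Ω (φ v) := by
    funext v
    exact bcm_one b φ v
  have h3 : (fun v => algebraMap k Ω (φ v)) ∈ Submodule.span Ω
      {g : (Fin m × Fin 2 → V) → Ω | ∃ s ∈ Set.range (fun σ => (fun v => mm ω (m := m) σ v)),
        g = fun x => algebraMap k Ω (s x)} := by
    rw [← h2]
    have h4 : (Submodule.span Ω (Set.range (mm (bcb Ω ω) (m := m)))).map res ≤ Submodule.span Ω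
      {g : (Fin m × Fin 2 → V) → Ω | ∃ s ∈ Set.range (fun σ => (fun v => mm ω (m := m) σ v)),
        g = fun x => algebraMap k Ω (s x)} := by
      rw [Submodule.map_span, Submodule.span_le]
      rintro _ ⟨_, ⟨σ, rfl⟩, rfl⟩
      refine Submodule.subset_span ⟨_, ⟨σ, rfl⟩, ?_⟩
      funext v
      change mm (bcb Ω ω) σ (fun l => (1 : Ω) ⊗ₜ[k] v l) = algebraMap k Ω (mm ω σ v)
      rw [mm_apply, mm_apply, map_prod]
      exact Finset.prod_congr rfl fun s _ => bcb_one ω _ _
    exact h4 (Submodule.mem_map_of_mem h1)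
  have h4 := span_descent_k _ _ h3
  let emb : MultilinearMap k (fun _ : Fin m × Fin 2 => V) k →ₗ[k]
      ((Fin m × Fin 2 → V) → k) :=
    { toFun := fun F v => F v
      map_add' := fun _ _ => rfl
      map_smul' := fun _ _ => rfl }
  have h5 : Submodule.span k (Set.range (fun σ => (fun v => mm ω (m := m) σ v))) =
      (Submodule.span k (Set.range (mm ω (m := m)))).map emb := by
    rw [Submodule.map_span, ← Set.range_comp]
    rfl
  rw [h5] at h4
  obtain ⟨φ', hφ', hφφ⟩ := h4
  have h6 : φ' = φ := MultilinearMap.ext fun v => congrFun hφφ v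
  rwa [← h6]

include b in
/-- Irreducibility over the larger field. -/
theorem bcr_irr (Δ : Subgroup Γ) (hspan : Submodule.span k (ρ '' (Δ : Set Γ)) = ⊤)
    (U : Submodule Ω (Ω ⊗[k] V)) (hU : ∀ s ∈ Δ, ∀ u ∈ U, bcr ρ Ω s u ∈ U) : U = ⊥ ∨ U = ⊤ := by
  by_cases hbot : U = ⊥
  · exact Or.inl hbot
  refine Or.inr ?_
  have h1 : ∀ X : Module.End k V, ∀ u ∈ U, X.baseChange Ω u ∈ U := by
    intro X
    have hX : X ∈ Submodule.span k (ρ '' (Δ : Set Γ)) := by
      rw [hspan]
      trivial
    induction hX using Submodule.span_induction with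
    | mem X hX =>
      obtain ⟨s, hs, rfl⟩ := hX
      exact fun u hu => hU s hs u hu
    | zero =>
      intro u hu
      rw [LinearMap.baseChange_zero, LinearMap.zero_apply]
      exact U.zero_mem
    | add X Y _ _ hX hY =>
      intro u hu
      rw [LinearMap.baseChange_add, LinearMap.add_apply]
      exact U.add_mem (hX u hu) (hY u hu)
    | smul c X _ hX =>
      intro u hu
      rw [LinearMap.baseChange_smul, LinearMap.smul_apply,
        ← algebraMap_smul Ω c (X.baseChange Ω u)]
      exact U.smul_mem _ (hX u hu)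
  obtain ⟨u, hu, hu0⟩ := Submodule.exists_mem_ne_zero_of_ne_bot hbot
  have h2 : ∃ i, (b.baseChange Ω).repr u i ≠ 0 := by
    by_contra hcon
    push Not at hcon
    apply hu0
    rw [← LinearEquiv.map_eq_zero_iff (b.baseChange Ω).repr]
    ext i
    exact hcon i
  obtain ⟨i, hi⟩ := h2
  rw [eq_top_iff, ← (b.baseChange Ω).span_eq, Submodule.span_le]
  rintro _ ⟨j, rfl⟩
  let X : Module.End k V := (LinearMap.toSpanSingleton k V (b j)).comp (b.coord i)
  have h3 : X.baseChange Ω u = (b.baseChange Ω).repr u i • b.baseChange Ω j := by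
    have h4 : X.baseChange Ω = (LinearMap.toSpanSingleton Ω (Ω ⊗[k] V) (b.baseChange Ω j)).comp
        ((b.baseChange Ω).coord i) := by
      refine (b.baseChange Ω).ext fun l => ?_
      rw [Basis.baseChange_apply, LinearMap.baseChange_tmul, LinearMap.comp_apply]
      change (1 : Ω) ⊗ₜ[k] ((b.coord i (b l)) • b j) = ((b.baseChange Ω).coord i ((1 : Ω) ⊗ₜ[k] b l)) •
        (b.baseChange Ω j)
      rw [← Basis.baseChange_apply, Basis.coord_apply, Basis.repr_self, Basis.coord_apply,
        Basis.repr_self, Finsupp.single_apply, Finsupp.single_apply, Basis.baseChange_apply]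
      split_ifs
      · rw [one_smul, one_smul]
      · rw [zero_smul, zero_smul, TensorProduct.tmul_zero]
    rw [h4]
    rfl
  have h5 := h1 X u hu
  rw [h3] at h5
  exact (Submodule.smul_mem_iff _ hi).1 h5

end

end Pool.Agent.H204R3.SP
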