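import Mathlib
import Pool.Agent.H204R3.CM.Main
import Pool.Agent.H204R3.CM.Disc
import Pool.Agent.H204R3.CM.Sign
import Pool.Agent.H204R3.SP.CoreOddVal

/-!
# Weil numbers: multiplicative relations between conjugates
-/

set_option linter.unusedSectionVars false

namespace Pool.Agent.H204R3.SP

open NumberField Module Pool.Agent.H204R3.CM

noncomputable section

/-- The condition on the slopes of the Weil number `π` with `π * conj π = q = p ^ a`: for every
embedding `τ` of its field into an algebraic closure of `ℚ_p` write `|τ π| = |q| ^ s` (so `s` is a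
slope). For some `N`, all the numbers `u = N * (2 * s - 1)` are odd integers. For instance: all
slopes `s` are `0` or `1` (ordinary), or all slopes have odd denominators, or all slopes are
`1 / 4` or `3 / 4`. -/
def OddSlopes (p a : ℕ) [Fact p.Prime] {F : Type*} [Field F] (π : F) : Prop :=
  ∃ N : ℕ, ∀ τ : F →+* PadicAlgCl p, ∃ u : ℤ, Odd u ∧
    ‖τ π‖ ^ (2 * N) = ‖(p : PadicAlgCl p) ^ a‖ ^ ((N : ℤ) + u)

theorem norm_q_pos (p : ℕ) [Fact p.Prime] (a : ℕ) : 0 < ‖(p : PadicAlgCl p) ^ a‖ := by
  rw [norm_pos_iff]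
  exact pow_ne_zero _ (Nat.cast_ne_zero.2 (Fact.out : p.Prime).ne_zero)

theorem norm_p_lt (p : ℕ) [Fact p.Prime] : ‖(p : PadicAlgCl p)‖ < 1 := by
  have h1 := PadicAlgCl.valuation_p p
  have h2 := PadicAlgCl.valuation_coe p (p : PadicAlgCl p)
  rw [← h2, h1]
  have h3 : (1 : ℝ) < p := by exact_mod_cast (Fact.out : p.Prime).one_lt
  push_cast
  rw [div_lt_one (by linarith)]
  exact h3

theorem norm_q_lt (p : ℕ) [Fact p.Prime] {a : ℕ} (ha : 0 < a) :
    ‖(p : PadicAlgCl p) ^ a‖ < 1 := by
  rw [norm_pow]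
  exact pow_lt_one₀ (norm_nonneg _) (norm_p_lt p) ha.ne'

theorem zpow_inj' {x : ℝ} (h0 : 0 < x) (h1 : x < 1) {m n : ℤ} (h : x ^ m = x ^ n) : m = n :=
  zpow_right_injective₀ h0 h1.ne h

variable {p : ℕ} [Fact p.Prime] {a : ℕ} {F : Type*} [Field F] [NumberField F] [IsCMField F]
  {L : Type*} [Field L] [NumberField L] [IsGalois ℚ L]

/-- A multiplicative relation between the conjugates of a Weil number with odd slopes in a CM
field of degree a power of two whose discriminant is not a square is trivial. -/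
theorem balance (ha : 0 < a) {π : F} (hw : π * IsCMField.complexConj F π = (p : F) ^ a)
    (hslope : OddSlopes p a π) {k : ℕ} (hdeg : finrank ℚ F = 2 ^ (k + 1))
    (hdisc : ¬ IsSquare (discr F)) (j : L →+* ℂ)
    (h : ∀ ψ : F →+* ℂ, ∃ φ : F →+* L, j.comp φ = ψ) (jp : L →+* PadicAlgCl p)
    [DecidableEq (F →+* L)]
    {m M : ℕ} (hM : 0 < M) (I : Fin m × Fin 2 → (F →+* L))
    (hprod : ∏ l, (I l π) ^ M = ((p : L) ^ a) ^ (m * M)) (y : F →+* L) :
    (Finset.univ.filter (fun l => I l = y)).card =
      (Finset.univ.filter (fun l => I l = cbar y)).card := by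
  classical
  obtain ⟨N, hN⟩ := hslope
  have h0 := norm_q_pos p a
  have h1 := norm_q_lt p ha
  choose u hu1 hu2 using hN
  set Q : ℝ := ‖(p : PadicAlgCl p) ^ a‖ with hQ
  let e : (F →+* L) → ℤ := fun φ => u (jp.comp φ)
  have he : ∀ φ, e (cbar φ) = -e φ := by
    intro φ
    have h2 : ‖(jp.comp φ) π‖ * ‖(jp.comp (cbar φ)) π‖ = Q := by
      rw [← norm_mul, hQ]
      congr 1
      change jp (φ π) * jp (φ (IsCMField.complexConj F π)) = _
      rw [← map_mul, ← map_mul, hw]
      simp only [map_pow, map_natCast]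
    have h3 : ‖(jp.comp φ) π‖ ^ (2 * N) * ‖(jp.comp (cbar φ)) π‖ ^ (2 * N) = Q ^ (2 * N) := by
      rw [← mul_pow, h2]
    rw [hu2, hu2, ← zpow_add₀ h0.ne', ← zpow_natCast] at h3
    have h4 := zpow_inj' h0 h1 h3
    push_cast at h4
    change u (jp.comp (cbar φ)) = -u (jp.comp φ)
    linarith
  -- the relation
  have hrel0 : ∀ σ : L ≃ₐ[ℚ] L, ∑ l, e (σ • I l) = 0 := by
    intro σ
    have h2 : ∏ l, (jp.comp (σ • I l)) π ^ M = ((p : PadicAlgCl p) ^ a) ^ (m * M) := by
      have h3 := congrArg (fun x => jp (σ x)) hprod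
      simp only [map_prod, map_pow, map_natCast] at h3
      exact h3
    have h3 := congrArg (fun x => ‖x‖) h2
    simp only [norm_prod, norm_pow (_ : PadicAlgCl p)] at h3
    rw [Finset.prod_pow, ← norm_pow, ← hQ, pow_mul] at h3
    have h4 : ∏ l, ‖(jp.comp (σ • I l)) π‖ = Q ^ m :=
      (pow_left_inj₀ (Finset.prod_nonneg fun _ _ => norm_nonneg _) (pow_nonneg h0.le _) hM.ne').1 h3
    have h5 : ∏ l, ‖(jp.comp (σ • I l)) π‖ ^ (2 * N) = Q ^ (m * (2 * N)) := by
      rw [Finset.prod_pow, h4, ← pow_mul]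
    have h6 : ∀ l, ‖(jp.comp (σ • I l)) π‖ ^ (2 * N) = Q ^ ((N : ℤ) + e (σ • I l)) :=
      fun l => hu2 _
    rw [Finset.prod_congr rfl (fun l _ => h6 l), ← zpow_natCast] at h5
    have h7 : ∀ s : Finset (Fin m × Fin 2), ∏ l ∈ s, Q ^ ((N : ℤ) + e (σ • I l)) =
        Q ^ (∑ l ∈ s, ((N : ℤ) + e (σ • I l))) := by
      intro s
      induction s using Finset.induction_on with
      | empty => rw [Finset.prod_empty, Finset.sum_empty, zpow_zero]
      | insert l s hl ih =>
        rw [Finset.prod_insert hl, Finset.sum_insert hl, ih]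
        exact (zpow_add₀ h0.ne' _ _).symm
    rw [h7] at h5
    have h8 := zpow_inj' h0 h1 h5
    rw [Finset.sum_add_distrib, Finset.sum_const, Finset.card_univ, Fintype.card_prod,
      Fintype.card_fin, Fintype.card_fin, nsmul_eq_mul] at h8
    push_cast at h8
    linarith
  let c : (F →+* L) → ℤ := fun y => ((Finset.univ.filter (fun l => I l = y)).card : ℤ) -
    ((Finset.univ.filter (fun l => I l = cbar y)).card : ℤ)
  have hc : ∀ y, c (cbar y) = -c y := by
    intro y
    simp only [c, cbar_cbar]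
    ring
  have hcount : ∀ E : (F →+* L) → ℤ,
      ∑ y, ((Finset.univ.filter (fun l => I l = y)).card : ℤ) * E y = ∑ l, E (I l) := by
    intro E
    have h2 : ∀ y, ((Finset.univ.filter (fun l => I l = y)).card : ℤ) * E y =
        ∑ l, if I l = y then E y else 0 := by
      intro y
      rw [← Finset.sum_filter, Finset.sum_const, nsmul_eq_mul]
    rw [Finset.sum_congr rfl (fun y _ => h2 y), Finset.sum_comm]
    refine Finset.sum_congr rfl fun l _ => ?_
    rw [Finset.sum_ite_eq, if_pos (Finset.mem_univ _)]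
  have hmain : ∀ y, c y = 0 := by
    refine core_odd_val (G := L ≃ₐ[ℚ] L) (Y := F →+* L) cbar cbar_cbar cbar_ne (fun g φ => rfl) k
      ?_ e he (fun φ => hu1 _) ?_ c hc ?_
    · rw [card_emb j h, hdeg, pow_succ, mul_comm]
    · by_contra hall
      push Not at hall
      apply hdisc
      have hS := isSquare_of_sign j (fun _ : Unit => F) (fun _ => h) Finset.univ ?_
      · simpa using hS
      intro σ
      have h2 := hall σ
      rw [Nat.not_odd_iff_even] at h2
      rw [Finset.univ_unique, Finset.prod_singleton]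
      have hhalf : Pool.Agent.H925R2.IsHalf (R := F →+* L) cbar
          (Finset.univ.filter (fun φ => e φ % 4 = 1)) := by
        intro φ
        simp only [Finset.mem_filter, Finset.mem_univ, true_and]
        rw [he]
        obtain ⟨a, ha⟩ := hu1 (jp.comp φ)
        change e φ = 2 * a + 1 at ha
        omega
      rw [sign_of_half (fun φ => cbar_cbar φ) _ hhalf (MulAction.toPerm σ) (fun φ => rfl)]
      exact h2.neg_one_pow
    · intro σ
      have h2 : ∀ y, c y * e (σ • y) =
          ((Finset.univ.filter (fun l => I l = y)).card : ℤ) * e (σ • y) -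
          ((Finset.univ.filter (fun l => I l = cbar y)).card : ℤ) * e (σ • y) := by
        intro y
        simp only [c]
        ring
      rw [Finset.sum_congr rfl (fun y _ => h2 y), Finset.sum_sub_distrib, hcount, hrel0 σ]
      have h3 : ∑ y, ((Finset.univ.filter (fun l => I l = cbar y)).card : ℤ) * e (σ • y) =
          ∑ y, ((Finset.univ.filter (fun l => I l = y)).card : ℤ) * e (σ • cbar y) := by
        let E : (F →+* L) ≃ (F →+* L) := ⟨cbar, cbar, cbar_cbar, cbar_cbar⟩
        rw [← Equiv.sum_comp E]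
        refine Finset.sum_congr rfl fun y _ => ?_
        change ((Finset.univ.filter (fun l => I l = cbar (cbar y))).card : ℤ) * e (σ • cbar y) = _
        rw [cbar_cbar]
      rw [h3, hcount (fun y => e (σ • cbar y))]
      have h4 : ∀ l, e (σ • cbar (I l)) = -e (σ • I l) := by
        intro l
        rw [← he]
        rfl
      rw [Finset.sum_congr rfl (fun l _ => h4 l), Finset.sum_neg_distrib, hrel0 σ]
      norm_num
  have := hmain y
  simp only [c] at this
  omega

end

end Pool.Agent.H204R3.SP
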